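import Pool.Agent.R623.AF.Stm

/-!
# Piece ROU of project AF: a number close to a root of unity is not a root of unity of small order
-/

set_option autoImplicit false

namespace Pool.Agent.R623.AF

theorem ROU : S_ROU := by
  intro p k L Λ hp hΛ hL e he heL hexp
  rw [← Complex.exp_nat_mul, Complex.exp_eq_one_iff] at hexp
  obtain ⟨m, hm⟩ := hexp
  have hp0 : (p : ℂ) ≠ 0 := by
    have : p ≠ 0 := by omega
    exact_mod_cast this
  -- e Λ = 2 π i (m p - e k)
  have h1 : (e : ℂ) * Λ = ((m * p - e * k : ℤ) : ℂ) * (2 * Real.pi * Complex.I) := by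
    have h2 := congrArg (fun z => z * (p : ℂ)) hm
    have h3 : (e : ℂ) * (2 * Real.pi * Complex.I * k / p + Λ / p) * p =
        e * (2 * Real.pi * Complex.I * k + Λ) := by
      field_simp
    rw [h3] at h2
    push_cast
    linear_combination h2
  have hn : ‖(e : ℂ) * Λ‖ < 1 := by
    rw [norm_mul, Complex.norm_natCast]
    have : (e : ℝ) ≤ L := by exact_mod_cast heL.le
    exact lt_of_le_of_lt (mul_le_mul_of_nonneg_right this (norm_nonneg _)) hL
  have hz : (m * p - e * k : ℤ) = 0 := by
    by_contra hne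
    have h4 : (1 : ℝ) ≤ |((m * p - e * k : ℤ) : ℝ)| := by
      exact_mod_cast Int.one_le_abs hne
    have h5 : ‖(e : ℂ) * Λ‖ = |((m * p - e * k : ℤ) : ℝ)| * (2 * Real.pi) := by
      rw [h1, norm_mul, Complex.norm_intCast]
      congr 1
      rw [norm_mul, norm_mul, Complex.norm_I, Complex.norm_real, Real.norm_eq_abs,
        abs_of_pos Real.pi_pos]
      simp
    rw [h5] at hn
    nlinarith [Real.pi_gt_three]
  rw [hz] at h1
  simp only [Int.cast_zero, zero_mul, mul_eq_zero] at h1
  rcases h1 with h1 | h1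
  · have : e = 0 := by exact_mod_cast h1
    omega
  · exact hΛ h1

end Pool.Agent.R623.AF
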