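import Mathlib

set_option autoImplicit false
open scoped Pointwise
open Finset

namespace Pool.Agent.R392.Haight

/-- Fibre counting for surjective homomorphisms of finite additive groups. -/
lemma card_preimage {G H : Type} [AddCommGroup G] [AddCommGroup H] [Fintype G] [Fintype H]
    [DecidableEq H] (f : G →+ H) (hf : Function.Surjective f) (Z : Finset H) :
    (univ.filter (fun g => f g ∈ Z)).card * Fintype.card H = Z.card * Fintype.card G := by
  classical
  have hfib : ∀ h : H, (univ.filter (fun g => f g = h)).card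
      = (univ.filter (fun g => f g = 0)).card := by
    intro h
    obtain ⟨g0, rfl⟩ := hf h
    refine Finset.card_bij (fun g _ => g - g0) ?_ ?_ ?_
    · intro g hg
      simp only [mem_filter, mem_univ, true_and] at hg ⊢
      rw [map_sub, hg, sub_self]
    · intro a _ b _ hab
      simpa using hab
    · intro b hb
      simp only [mem_filter, mem_univ, true_and] at hb
      refine ⟨b + g0, ?_, by simp⟩
      simp only [mem_filter, mem_univ, true_and]
      rw [map_add, hb, zero_add]
  have h1 : (univ.filter (fun g => f g ∈ Z)).card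
      = Z.card * (univ.filter (fun g => f g = 0)).card := by
    rw [Finset.card_eq_sum_card_fiberwise (f := f) (t := Z)]
    · rw [Finset.sum_congr rfl (g := fun _ => (univ.filter (fun g => f g = 0)).card)]
      · simp
      · intro z hz
        rw [← hfib z]
        congr 1
        ext g
        simp only [mem_filter, mem_univ, true_and]
        constructor
        · rintro ⟨_, h⟩; exact h
        · intro h; exact ⟨by rw [h]; exact hz, h⟩
    · intro g hg
      simpa using hg
  have h2 : Fintype.card G = Fintype.card H * (univ.filter (fun g => f g = 0)).card := by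
    have := Finset.card_eq_sum_card_fiberwise (s := (univ : Finset G)) (f := f)
      (t := (univ : Finset H)) (by intro x _; simp)
    rw [Finset.card_univ] at this
    rw [this, Finset.sum_congr rfl (fun h _ => hfib h)]
    simp
  rw [h1, h2]
  ring

/-- Chinese remainder package. -/
lemma exists_crt (m : ℕ) [NeZero m] (ι : Type) [Fintype ι] (K : ℕ) :
    ∃ (m' : ℕ) (_ : NeZero m') (p : ι → ℕ) (_ : ∀ i, Fact (p i).Prime)
      (π : ZMod m' →+* ZMod m) (q : ∀ i, ZMod m' →+* ZMod (p i)),
      (∀ i, K < p i) ∧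
      ∀ (a : ZMod m) (b : ∀ i, ZMod (p i)), ∃ y, π y = a ∧ ∀ i, q i y = b i := by
  classical
  let K' := K + m + 1
  let p : ι → ℕ := fun i => Nat.nth Nat.Prime (K' + Fintype.equivFin ι i)
  have hpK : ∀ i, K' ≤ p i := by
    intro i
    have h1 : K' + (Fintype.equivFin ι i : ℕ) ≤ p i :=
      (Nat.nth_strictMono Nat.infinite_setOf_prime).le_apply
    omega
  have hpr : ∀ i, (p i).Prime := fun i => Nat.prime_nth_prime _
  have hinj : Function.Injective p := by
    intro i j hij
    have := (Nat.nth_strictMono Nat.infinite_setOf_prime).injective hij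
    have h2 : (Fintype.equivFin ι i : ℕ) = (Fintype.equivFin ι j : ℕ) := by omega
    exact (Fintype.equivFin ι).injective (Fin.ext h2)
  have hcop : Pairwise (Function.onFun Nat.Coprime p) := by
    intro i j hij
    exact (Nat.coprime_primes (hpr i) (hpr j)).2 (fun h => hij (hinj h))
  have hcop' : Nat.Coprime m (∏ i, p i) := by
    refine Nat.Coprime.prod_right ?_
    intro i _
    refine Nat.Coprime.symm ((Nat.Prime.coprime_iff_not_dvd (hpr i)).2 ?_)
    intro hd
    have := Nat.le_of_dvd (Nat.pos_of_ne_zero (NeZero.ne m)) hd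
    have := hpK i
    omega
  have hP : (∏ i, p i) ≠ 0 := Finset.prod_ne_zero_iff.2 (fun i _ => (hpr i).ne_zero)
  let e1 := ZMod.chineseRemainder hcop'
  let e2 := ZMod.prodEquivPi p hcop
  refine ⟨m * ∏ i, p i, ⟨mul_ne_zero (NeZero.ne m) hP⟩, p, fun i => ⟨hpr i⟩,
    (RingHom.fst _ _).comp e1.toRingHom,
    fun i => (Pi.evalRingHom _ i).comp (e2.toRingHom.comp ((RingHom.snd _ _).comp e1.toRingHom)),
    ?_, ?_⟩
  · intro i
    have := hpK i
    omega
  · intro a b
    refine ⟨e1.symm (a, e2.symm b), ?_, ?_⟩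
    · simp
    · intro i
      simp

def Good (k : ℕ) (ε : ℝ) : Prop :=
  ∃ (m : ℕ) (_ : NeZero m) (φ : ZMod m → ZMod m) (Z : Finset (ZMod m)),
    (Z.card : ℝ) ≤ ε * m ∧
    ∀ (x : Fin 4 → ZMod m) (E : Finset (Fin 4)),
      (∑ i, (φ (x i) + if i ∈ E then x i else 0)) ∈ Z ∨ k + 1 ≤ (univ.image x).card

lemma good_zero : Good 0 0 := by
  refine ⟨1, ⟨one_ne_zero⟩, fun _ => 0, ∅, by simp, ?_⟩
  intro x E
  right
  have : (univ.image x).Nonempty := ⟨x 0, by simp⟩
  have := this.card_pos
  omega

lemma good_succ {k : ℕ} {ε δ : ℝ} (hδ : 0 < δ) (h : Good k ε) : Good (k + 1) (ε + δ) := by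
  classical
  obtain ⟨m, hm, φ, Z, hZ, h⟩ := h
  set Ρ := ZMod m → Fin 5 × Fin 5 with hΡ
  set N : ℕ := Fintype.card Ρ with hN
  obtain ⟨m', hm', p, hp, π, q, hpK, hcrt⟩ := exists_crt m Ρ (4 + ⌈(N : ℝ) / δ⌉₊)
  have hπs : Function.Surjective π := by
    intro a
    obtain ⟨y, hy, _⟩ := hcrt a (fun _ => 0)
    exact ⟨y, hy⟩
  have hqs : ∀ ρ, Function.Surjective (q ρ) := by
    intro ρ b
    obtain ⟨y, _, hy⟩ := hcrt 0 (Function.update (fun _ => 0) ρ b)
    exact ⟨y, by rw [hy]; simp⟩
  -- the new map
  have hφ : ∀ x : ZMod m', ∃ y : ZMod m', π y = φ (π x) ∧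
      ∀ ρ : Ρ, q ρ y = - ((((ρ (π x)).1 : ℕ) : ZMod (p ρ)) / (((ρ (π x)).2 : ℕ) : ZMod (p ρ)) * q ρ x) :=
    fun x => hcrt _ _
  choose φ' hφ1 hφ2 using hφ
  refine ⟨m', hm', φ', univ.filter (fun y => π y ∈ Z) ∪
    univ.biUnion (fun ρ : Ρ => univ.filter (fun y => q ρ y ∈ ({0} : Finset (ZMod (p ρ))))), ?_, ?_⟩
  · -- counting
    have hmpos : (0 : ℝ) < m := by exact_mod_cast Nat.pos_of_ne_zero (NeZero.ne m)
    have hm'pos : (0 : ℝ) < m' := by exact_mod_cast Nat.pos_of_ne_zero (NeZero.ne m')
    have c1 : ((univ.filter (fun y : ZMod m' => π y ∈ Z)).card : ℝ) ≤ ε * m' := by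
      have := card_preimage π.toAddMonoidHom hπs Z
      rw [ZMod.card, ZMod.card] at this
      have h2 : ((univ.filter (fun y : ZMod m' => π y ∈ Z)).card : ℝ) * m = Z.card * m' := by
        exact_mod_cast this
      have h3 : ((univ.filter (fun y : ZMod m' => π y ∈ Z)).card : ℝ) * m ≤ (ε * m') * m := by
        rw [h2]
        nlinarith
      exact le_of_mul_le_mul_right h3 hmpos
    have c2 : ∀ ρ : Ρ, (((univ.filter
        (fun y : ZMod m' => q ρ y ∈ ({0} : Finset (ZMod (p ρ))))).card : ℝ)) * N ≤ δ * m' := by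
      intro ρ
      have := card_preimage (q ρ).toAddMonoidHom (hqs ρ) {0}
      rw [ZMod.card, ZMod.card, Finset.card_singleton, one_mul] at this
      have h2 : ((univ.filter
        (fun y : ZMod m' => q ρ y ∈ ({0} : Finset (ZMod (p ρ))))).card : ℝ) * (p ρ) = m' := by
        exact_mod_cast this
      have h3 : (N : ℝ) / δ ≤ p ρ := by
        have h4 := Nat.le_ceil ((N : ℝ) / δ)
        have h5 : ((⌈(N : ℝ) / δ⌉₊ : ℕ) : ℝ) ≤ p ρ := by
          have := hpK ρ
          exact_mod_cast (by omega : ⌈(N : ℝ) / δ⌉₊ ≤ p ρ)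
        linarith
      have h4 : (N : ℝ) ≤ δ * p ρ := by
        rw [div_le_iff₀ hδ] at h3
        linarith
      rw [← h2]
      have h5 : (0 : ℝ) ≤ ((univ.filter
        (fun y : ZMod m' => q ρ y ∈ ({0} : Finset (ZMod (p ρ))))).card : ℝ) := by positivity
      nlinarith
    have hNpos : (0 : ℝ) < N := by
      have : 0 < N := Fintype.card_pos
      exact_mod_cast this
    have c3 : ((univ.biUnion (fun ρ : Ρ => univ.filter
        (fun y : ZMod m' => q ρ y ∈ ({0} : Finset (ZMod (p ρ)))))).card : ℝ) ≤ δ * m' := by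
      have h1 : ((univ.biUnion (fun ρ : Ρ => univ.filter
        (fun y : ZMod m' => q ρ y ∈ ({0} : Finset (ZMod (p ρ)))))).card : ℝ) ≤
          ∑ ρ : Ρ, ((univ.filter
        (fun y : ZMod m' => q ρ y ∈ ({0} : Finset (ZMod (p ρ))))).card : ℝ) := by
        exact_mod_cast Finset.card_biUnion_le
      have h2 : (∑ ρ : Ρ, ((univ.filter
        (fun y : ZMod m' => q ρ y ∈ ({0} : Finset (ZMod (p ρ))))).card : ℝ)) ≤
          ∑ ρ : Ρ, (δ * m') / N := by
        refine Finset.sum_le_sum (fun ρ _ => ?_)
        rw [le_div_iff₀ hNpos]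
        exact c2 ρ
      have h3 : (∑ ρ : Ρ, (δ * m') / N) = δ * m' := by
        rw [Finset.sum_const, Finset.card_univ, ← hN, nsmul_eq_mul]
        field_simp
      linarith
    have c4 := Finset.card_union_le (univ.filter (fun y : ZMod m' => π y ∈ Z))
      (univ.biUnion (fun ρ : Ρ => univ.filter (fun y => q ρ y ∈ ({0} : Finset (ZMod (p ρ))))))
    have c5 : (((univ.filter (fun y : ZMod m' => π y ∈ Z)) ∪
      (univ.biUnion (fun ρ : Ρ => univ.filter
        (fun y => q ρ y ∈ ({0} : Finset (ZMod (p ρ))))))).card : ℝ) ≤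
        ((univ.filter (fun y : ZMod m' => π y ∈ Z)).card : ℝ) +
        ((univ.biUnion (fun ρ : Ρ => univ.filter
        (fun y : ZMod m' => q ρ y ∈ ({0} : Finset (ZMod (p ρ)))))).card : ℝ) := by
      exact_mod_cast c4
    linarith
  · intro x E
    by_contra hcon
    push Not at hcon
    obtain ⟨hS, hcard⟩ := hcon
    rw [Finset.mem_union, not_or] at hS
    obtain ⟨hS1, hS2⟩ := hS
    have hS1' : π (∑ i, (φ' (x i) + if i ∈ E then x i else 0)) ∉ Z := by
      intro h'
      exact hS1 (by simp only [mem_filter, mem_univ, true_and]; exact h')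
    have hπS : π (∑ i, (φ' (x i) + if i ∈ E then x i else 0))
        = ∑ i, (φ (π (x i)) + if i ∈ E then π (x i) else 0) := by
      rw [map_sum]
      refine Finset.sum_congr rfl (fun i _ => ?_)
      rw [map_add, hφ1]
      split_ifs <;> simp
    rw [hπS] at hS1'
    have hk := (h (fun i => π (x i)) E).resolve_left hS1'
    have himg : (univ.image (fun i => π (x i))) = (univ.image x).image π := by
      rw [Finset.image_image]; rfl
    have hinj : Set.InjOn π (univ.image x : Finset (ZMod m')) := by
      apply Finset.injOn_of_card_image_eq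
      rw [← himg]
      refine le_antisymm ?_ ?_
      · rw [himg]; exact Finset.card_image_le
      · omega
    have hinj' : ∀ i j, π (x i) = π (x j) → x i = x j := by
      intro i j hij
      exact hinj (by simp) (by simp) hij
    -- the relevant ratio function
    let cA : ZMod m → ℕ := fun c => (univ.filter (fun i => π (x i) = c ∧ i ∈ E)).card
    let cB : ZMod m → ℕ := fun c => (univ.filter (fun i => π (x i) = c)).card
    have hcA : ∀ c, cA c < 5 := by
      intro c
      have := Finset.card_le_univ (univ.filter (fun i : Fin 4 => π (x i) = c ∧ i ∈ E))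
      simp only [Fintype.card_fin] at this
      show (univ.filter (fun i : Fin 4 => π (x i) = c ∧ i ∈ E)).card < 5
      omega
    have hcB : ∀ c, cB c < 5 := by
      intro c
      have := Finset.card_le_univ (univ.filter (fun i : Fin 4 => π (x i) = c))
      simp only [Fintype.card_fin] at this
      show (univ.filter (fun i : Fin 4 => π (x i) = c)).card < 5
      omega
    let ρ : Ρ := fun c => (⟨cA c, hcA c⟩, ⟨cB c, hcB c⟩)
    have hpρ : 4 < p ρ := by
      have := hpK ρ
      omega
    have hBne : ∀ i, ((cB (π (x i)) : ℕ) : ZMod (p ρ)) ≠ 0 := by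
      intro i h0
      rw [ZMod.natCast_eq_zero_iff] at h0
      have hpos : 0 < cB (π (x i)) := by
        apply Finset.card_pos.2
        exact ⟨i, by simp⟩
      have := Nat.le_of_dvd hpos h0
      have := hcB (π (x i))
      omega
    apply hS2
    rw [Finset.mem_biUnion]
    refine ⟨ρ, mem_univ _, ?_⟩
    simp only [mem_filter, mem_univ, true_and, mem_singleton]
    rw [map_sum]
    -- group by the value of π (x i)
    have hterm : ∀ i, q ρ (φ' (x i) + if i ∈ E then x i else 0) =
        ((if i ∈ E then 1 else 0) - (cA (π (x i)) : ZMod (p ρ)) / (cB (π (x i)) : ZMod (p ρ)))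
          * q ρ (x i) := by
      intro i
      rw [map_add, hφ2]
      show -(((cA (π (x i)) : ℕ) : ZMod (p ρ)) / ((cB (π (x i)) : ℕ) : ZMod (p ρ)) * q ρ (x i))
        + q ρ (if i ∈ E then x i else 0) = _
      split_ifs
      · ring
      · rw [map_zero]; ring
    rw [Finset.sum_congr rfl (fun i _ => hterm i)]
    rw [← Finset.sum_fiberwise (s := univ) (g := fun i => π (x i))]
    refine Finset.sum_eq_zero (fun c _ => ?_)
    by_cases hc : ∃ i0, π (x i0) = c
    · obtain ⟨i0, rfl⟩ := hc
      have : ∀ i ∈ univ.filter (fun i => π (x i) = π (x i0)),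
          ((if i ∈ E then 1 else 0) - (cA (π (x i)) : ZMod (p ρ)) / (cB (π (x i)) : ZMod (p ρ)))
          * q ρ (x i) = ((if i ∈ E then 1 else 0) - (cA (π (x i0)) : ZMod (p ρ)) / (cB (π (x i0)) : ZMod (p ρ)))
          * q ρ (x i0) := by
        intro i hi
        simp only [mem_filter, mem_univ, true_and] at hi
        rw [hinj' i i0 hi]
      rw [Finset.sum_congr rfl this, ← Finset.sum_mul, Finset.sum_sub_distrib, Finset.sum_const]
      have h1 : (∑ i ∈ univ.filter (fun i => π (x i) = π (x i0)), (if i ∈ E then (1 : ZMod (p ρ)) else 0))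
          = (cA (π (x i0)) : ZMod (p ρ)) := by
        rw [← Finset.sum_filter, Finset.filter_filter, Finset.sum_const, nsmul_eq_mul, mul_one]
      have h2 : (univ.filter (fun i => π (x i) = π (x i0))).card = cB (π (x i0)) := rfl
      rw [h1, h2, nsmul_eq_mul, mul_div_cancel₀ _ (hBne i0), sub_self, zero_mul]
    · push Not at hc
      rw [Finset.filter_false_of_mem (by intro i _; exact hc i)]
      simp

end Pool.Agent.R392.Haight
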