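import Pool.Agent.R392.Haight

set_option autoImplicit false
open scoped Pointwise
open Finset

namespace Pool.Agent.R392.Haight

/-- The finite theorem of Haight and Ruzsa (for four summands). -/
lemma exists_finite : ∃ (m : ℕ) (D : Finset ℤ), 0 < m ∧ (∀ d ∈ D, 0 ≤ d ∧ d < m) ∧
    (∀ w : ℤ, ∃ d ∈ D, ∃ d' ∈ D, ∃ z : ℤ, w = d - d' + m * z) ∧ (D + D + D + D).card < m := by
  classical
  have h4 : Good (0 + 1 + 1 + 1 + 1) (0 + 1/20 + 1/20 + 1/20 + 1/20) :=
    good_succ (by norm_num) (good_succ (by norm_num) (good_succ (by norm_num)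
      (good_succ (by norm_num) good_zero)))
  obtain ⟨m, hm, φ, Z, hZ, h⟩ := h4
  have hall : ∀ (x : Fin 4 → ZMod m) (E : Finset (Fin 4)),
      (∑ i, (φ (x i) + if i ∈ E then x i else 0)) ∈ Z := by
    intro x E
    refine (h x E).resolve_right ?_
    have := Finset.card_image_le (s := (univ : Finset (Fin 4))) (f := x)
    simp only [Finset.card_univ, Fintype.card_fin] at this
    omega
  have hmpos : 0 < m := Nat.pos_of_ne_zero (NeZero.ne m)
  let B : Finset (ZMod m) := univ.image φ ∪ univ.image (fun x => φ x + x)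
  let D : Finset ℤ := B.image (fun b => (b.val : ℤ))
  -- elements of B
  have hB : ∀ b ∈ B, ∃ (x : ZMod m) (e : Bool), b = φ x + if e then x else 0 := by
    intro b hb
    rcases Finset.mem_union.1 hb with h1 | h1
    · obtain ⟨x, _, rfl⟩ := Finset.mem_image.1 h1
      exact ⟨x, false, by simp⟩
    · obtain ⟨x, _, rfl⟩ := Finset.mem_image.1 h1
      exact ⟨x, true, by simp⟩
  have hBsum : ∀ b1 ∈ B, ∀ b2 ∈ B, ∀ b3 ∈ B, ∀ b4 ∈ B, b1 + b2 + b3 + b4 ∈ Z := by
    intro b1 h1 b2 h2 b3 h3 b4 h4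
    obtain ⟨x1, e1, rfl⟩ := hB b1 h1
    obtain ⟨x2, e2, rfl⟩ := hB b2 h2
    obtain ⟨x3, e3, rfl⟩ := hB b3 h3
    obtain ⟨x4, e4, rfl⟩ := hB b4 h4
    have := hall ![x1, x2, x3, x4] (univ.filter (fun i => (![e1, e2, e3, e4] : Fin 4 → Bool) i = true))
    simp only [Fin.sum_univ_four, mem_filter, mem_univ, true_and, Matrix.cons_val] at this
    cases e1 <;> cases e2 <;> cases e3 <;> cases e4 <;> simpa using this
  have hD : ∀ d ∈ D, 0 ≤ d ∧ d < m ∧ ((d : ZMod m)) ∈ B := by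
    intro d hd
    obtain ⟨b, hb, rfl⟩ := Finset.mem_image.1 hd
    refine ⟨by positivity, by exact_mod_cast ZMod.val_lt b, ?_⟩
    simpa using hb
  refine ⟨m, D, hmpos, fun d hd => ⟨(hD d hd).1, (hD d hd).2.1⟩, ?_, ?_⟩
  · intro w
    have h1 : φ (w : ZMod m) + w ∈ B := Finset.mem_union_right _ (Finset.mem_image_of_mem _ (mem_univ _))
    have h2 : φ (w : ZMod m) ∈ B := Finset.mem_union_left _ (Finset.mem_image_of_mem _ (mem_univ _))
    refine ⟨_, Finset.mem_image_of_mem _ h1, _, Finset.mem_image_of_mem _ h2, ?_⟩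
    have h3 : ((w - (((φ (w : ZMod m) + w).val : ℤ) - ((φ (w : ZMod m)).val : ℤ)) : ℤ) : ZMod m) = 0 := by
      push_cast
      rw [ZMod.natCast_zmod_val, ZMod.natCast_zmod_val]
      ring
    rw [ZMod.intCast_zmod_eq_zero_iff_dvd] at h3
    obtain ⟨z, hz⟩ := h3
    exact ⟨z, by linarith⟩
  · have hsub : (D + D + D + D) ⊆ (Z ×ˢ Finset.range 4).image
        (fun zj => (zj.1.val : ℤ) + m * (zj.2 : ℤ)) := by
      intro s hs
      obtain ⟨s3, hs3, d4, hd4, rfl⟩ := Finset.mem_add.1 hs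
      obtain ⟨s2, hs2, d3, hd3, rfl⟩ := Finset.mem_add.1 hs3
      obtain ⟨d1, hd1, d2, hd2, rfl⟩ := Finset.mem_add.1 hs2
      have k1 := hD _ hd1
      have k2 := hD _ hd2
      have k3 := hD _ hd3
      have k4 := hD _ hd4
      have hz := hBsum _ k1.2.2 _ k2.2.2 _ k3.2.2 _ k4.2.2
      have hz' : ((d1 + d2 + d3 + d4 : ℤ) : ZMod m) ∈ Z := by push_cast; exact hz
      rw [Finset.mem_image]
      have hmz : (0 : ℤ) < m := by exact_mod_cast hmpos
      have e1 := Int.emod_add_mul_ediv (d1 + d2 + d3 + d4) m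
      have e2 : 0 ≤ (d1 + d2 + d3 + d4) / (m : ℤ) := Int.ediv_nonneg (by omega) (by omega)
      have e3 : (d1 + d2 + d3 + d4) / (m : ℤ) < 4 := by
        apply Int.ediv_lt_of_lt_mul hmz
        linarith [k1.2.1, k2.2.1, k3.2.1, k4.2.1]
      refine ⟨(((d1 + d2 + d3 + d4 : ℤ) : ZMod m), ((d1 + d2 + d3 + d4) / (m : ℤ)).toNat), ?_, ?_⟩
      · rw [Finset.mem_product]
        refine ⟨hz', ?_⟩
        rw [Finset.mem_range]
        show ((d1 + d2 + d3 + d4) / (m : ℤ)).toNat < 4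
        omega
      · show ((((d1 + d2 + d3 + d4 : ℤ) : ZMod m)).val : ℤ)
          + m * ((((d1 + d2 + d3 + d4) / (m : ℤ)).toNat : ℕ) : ℤ) = _
        rw [ZMod.val_intCast, Int.toNat_of_nonneg e2]
        exact e1
    have hc : (D + D + D + D).card ≤ Z.card * 4 := by
      refine (Finset.card_le_card hsub).trans (Finset.card_image_le.trans ?_)
      rw [Finset.card_product, Finset.card_range]
    have hmr : (0 : ℝ) < m := by exact_mod_cast hmpos
    have hc' : ((D + D + D + D).card : ℝ) ≤ Z.card * 4 := by exact_mod_cast hc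
    have : ((D + D + D + D).card : ℝ) < m := by
      nlinarith
    exact_mod_cast this

/-- The approximations to the self-similar set. -/
def K (m : ℕ) (D : Finset ℤ) : ℕ → Set ℝ
  | 0 => Set.Icc 0 1
  | n + 1 => ⋃ d ∈ D, (fun t : ℝ => ((d : ℝ) + t) / m) '' K m D n

lemma K_compact (m : ℕ) (D : Finset ℤ) (n : ℕ) : IsCompact (K m D n) := by
  induction n with
  | zero => exact isCompact_Icc
  | succ n ih =>
    refine D.isCompact_biUnion (fun d _ => ih.image ?_)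
    fun_prop

lemma K_anti_succ (m : ℕ) (D : Finset ℤ) (hm : 0 < m) (hD : ∀ d ∈ D, 0 ≤ d ∧ d < m) (n : ℕ) :
    K m D (n + 1) ⊆ K m D n := by
  induction n with
  | zero =>
    intro x hx
    simp only [K, Set.mem_iUnion, Set.mem_image, Set.mem_Icc] at hx ⊢
    obtain ⟨d, hd, t, ⟨ht0, ht1⟩, rfl⟩ := hx
    obtain ⟨h0, h1⟩ := hD d hd
    have hmr : (0 : ℝ) < m := by exact_mod_cast hm
    have h0' : (0 : ℝ) ≤ d := by exact_mod_cast h0
    have h1' : (d : ℝ) + 1 ≤ m := by exact_mod_cast h1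
    refine ⟨by positivity, ?_⟩
    rw [div_le_one hmr]
    linarith
  | succ n ih =>
    intro x hx
    rw [K] at hx ⊢
    simp only [Set.mem_iUnion, Set.mem_image] at hx ⊢
    obtain ⟨d, hd, t, ht, rfl⟩ := hx
    exact ⟨d, hd, t, ih ht, rfl⟩

lemma K_sub_unit (m : ℕ) (D : Finset ℤ) (hm : 0 < m) (hD : ∀ d ∈ D, 0 ≤ d ∧ d < m) (n : ℕ) :
    K m D n ⊆ Set.Icc 0 1 := by
  induction n with
  | zero => exact subset_rfl
  | succ n ih => exact (K_anti_succ m D hm hD n).trans ih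

lemma K_diff (m : ℕ) (D : Finset ℤ) (hm : 0 < m)
    (hdiff : ∀ w : ℤ, ∃ d ∈ D, ∃ d' ∈ D, ∃ z : ℤ, w = d - d' + m * z) (n : ℕ) (y : ℝ) :
    ∃ a ∈ K m D n, ∃ a' ∈ K m D n, ∃ z : ℤ, y - a + a' = z := by
  induction n generalizing y with
  | zero =>
    refine ⟨Int.fract y, ⟨Int.fract_nonneg _, (Int.fract_lt_one _).le⟩, 0, ⟨le_rfl, zero_le_one⟩,
      ⌊y⌋, ?_⟩
    rw [Int.fract]; ring
  | succ n ih =>
    have hmr : (m : ℝ) ≠ 0 := by exact_mod_cast hm.ne'
    obtain ⟨t, ht, t', ht', w, hw⟩ := ih (m * y)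
    obtain ⟨d, hd, d', hd', z, hz⟩ := hdiff w
    refine ⟨((d : ℝ) + t) / m, ?_, ((d' : ℝ) + t') / m, ?_, z, ?_⟩
    · simp only [K, Set.mem_iUnion, Set.mem_image]
      exact ⟨d, hd, t, ht, rfl⟩
    · simp only [K, Set.mem_iUnion, Set.mem_image]
      exact ⟨d', hd', t', ht', rfl⟩
    · have hz' : (w : ℝ) = d - d' + m * z := by exact_mod_cast hz
      field_simp
      linarith

lemma volume_affine (f : ℝ) (m : ℕ) (hm : 0 < m) (S : Set ℝ) :
    MeasureTheory.volume ((fun t : ℝ => (f + t) / m) '' S)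
      = ENNReal.ofReal ((m : ℝ)⁻¹) * MeasureTheory.volume S := by
  have hmr : (0 : ℝ) < m := by exact_mod_cast hm
  have h1 : (fun t : ℝ => (f + t) / m) '' S = ((m : ℝ)⁻¹) • (f +ᵥ S) := by
    ext x
    simp only [Set.mem_image, Set.mem_smul_set, Set.mem_vadd_set]
    constructor
    · rintro ⟨t, ht, rfl⟩
      exact ⟨f + t, ⟨t, ht, rfl⟩, by simp [div_eq_inv_mul]⟩
    · rintro ⟨_, ⟨t, ht, rfl⟩, rfl⟩
      exact ⟨t, ht, by simp [div_eq_inv_mul]⟩
  rw [h1, MeasureTheory.Measure.addHaar_smul, MeasureTheory.measure_vadd]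
  simp [abs_of_pos hmr]

lemma K_volume (m : ℕ) (D : Finset ℤ) (hm : 0 < m) (n : ℕ) :
    MeasureTheory.volume (K m D n + K m D n + K m D n + K m D n)
      ≤ (ENNReal.ofReal ((m : ℝ)⁻¹) * ((D + D + D + D).card : ENNReal)) ^ n * 4 := by
  induction n with
  | zero =>
    have : K m D 0 + K m D 0 + K m D 0 + K m D 0 ⊆ Set.Icc (0 : ℝ) 4 := by
      intro x hx
      obtain ⟨x3, hx3, d, hd, rfl⟩ := Set.mem_add.1 hx
      obtain ⟨x2, hx2, c, hc, rfl⟩ := Set.mem_add.1 hx3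
      obtain ⟨a, ha, b, hb, rfl⟩ := Set.mem_add.1 hx2
      simp only [K, Set.mem_Icc] at ha hb hc hd ⊢
      constructor <;> linarith
    refine (MeasureTheory.measure_mono this).trans ?_
    simp [Real.volume_Icc]
  | succ n ih =>
    have hsub : K m D (n+1) + K m D (n+1) + K m D (n+1) + K m D (n+1) ⊆
        ⋃ f ∈ (D + D + D + D), (fun t : ℝ => (((f : ℤ) : ℝ) + t) / m) ''
          (K m D n + K m D n + K m D n + K m D n) := by
      intro x hx
      obtain ⟨x3, hx3, d, hd, rfl⟩ := Set.mem_add.1 hx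
      obtain ⟨x2, hx2, c, hc, rfl⟩ := Set.mem_add.1 hx3
      obtain ⟨a, ha, b, hb, rfl⟩ := Set.mem_add.1 hx2
      simp only [K, Set.mem_iUnion, Set.mem_image] at ha hb hc hd
      obtain ⟨a1, ha1, a2, ha2, rfl⟩ := ha
      obtain ⟨b1, hb1, b2, hb2, rfl⟩ := hb
      obtain ⟨c1, hc1, c2, hc2, rfl⟩ := hc
      obtain ⟨d1, hd1, d2, hd2, rfl⟩ := hd
      simp only [Set.mem_iUnion, Set.mem_image]
      refine ⟨a1 + b1 + c1 + d1, ?_, a2 + b2 + c2 + d2, ?_, ?_⟩
      · exact Finset.add_mem_add (Finset.add_mem_add (Finset.add_mem_add ha1 hb1) hc1) hd1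
      · exact Set.add_mem_add (Set.add_mem_add (Set.add_mem_add ha2 hb2) hc2) hd2
      · push_cast
        ring
    refine (MeasureTheory.measure_mono hsub).trans ?_
    refine (MeasureTheory.measure_biUnion_finset_le _ _).trans ?_
    have : ∀ f ∈ (D + D + D + D), MeasureTheory.volume ((fun t : ℝ => (((f : ℤ) : ℝ) + t) / m) ''
          (K m D n + K m D n + K m D n + K m D n)) ≤ ENNReal.ofReal ((m : ℝ)⁻¹) *
          ((ENNReal.ofReal ((m : ℝ)⁻¹) * ((D + D + D + D).card : ENNReal)) ^ n * 4) := by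
      intro f _
      rw [volume_affine _ m hm]
      gcongr
    refine (Finset.sum_le_sum this).trans ?_
    rw [Finset.sum_const, nsmul_eq_mul, pow_succ]
    apply le_of_eq
    ring

/-- The key construction. -/
lemma exists_A0 : ∃ A0 : Set ℝ, IsCompact A0 ∧ (∀ y : ℝ, ∃ a ∈ A0, ∃ a' ∈ A0, ∃ z : ℤ, y - a + a' = z)
    ∧ A0 ⊆ Set.Icc 0 1 ∧ MeasureTheory.volume (A0 + A0 + A0 + A0) = 0 := by
  obtain ⟨m, D, hm, hD, hdiff, hcard⟩ := exists_finite
  refine ⟨⋂ n, K m D n, ?_, ?_, ?_, ?_⟩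
  · exact (K_compact m D 0).of_isClosed_subset
      (isClosed_iInter (fun n => (K_compact m D n).isClosed)) (Set.iInter_subset _ 0)
  · intro y
    let C : ℕ → Set (ℝ × ℝ) := fun n => (K m D n ×ˢ K m D n) ∩
      {p | y - p.1 + p.2 ∈ Set.range ((↑) : ℤ → ℝ)}
    have hclosed : IsClosed {p : ℝ × ℝ | y - p.1 + p.2 ∈ Set.range ((↑) : ℤ → ℝ)} := by
      have : IsClosed (Set.range ((↑) : ℤ → ℝ)) := Int.isClosedEmbedding_coe_real.isClosed_range
      exact this.preimage (by fun_prop)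
    have hC : (⋂ n, C n).Nonempty := by
      apply IsCompact.nonempty_iInter_of_sequence_nonempty_isCompact_isClosed
      · intro n p hp
        have := K_anti_succ m D hm hD n
        exact ⟨⟨this hp.1.1, this hp.1.2⟩, hp.2⟩
      · intro n
        obtain ⟨a, ha, a', ha', z, hz⟩ := K_diff m D hm hdiff n y
        exact ⟨(a, a'), ⟨ha, ha'⟩, ⟨z, hz.symm⟩⟩
      · exact ((K_compact m D 0).prod (K_compact m D 0)).inter_right hclosed
      · intro n
        exact ((K_compact m D n).prod (K_compact m D n)).isClosed.inter hclosed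
    obtain ⟨⟨a, a'⟩, hp⟩ := hC
    rw [Set.mem_iInter] at hp
    refine ⟨a, Set.mem_iInter.2 (fun n => (hp n).1.1), a', Set.mem_iInter.2 (fun n => (hp n).1.2), ?_⟩
    obtain ⟨z, hz⟩ := (hp 0).2
    exact ⟨z, hz.symm⟩
  · exact Set.iInter_subset_of_subset 0 subset_rfl
  · have hle : ∀ n, MeasureTheory.volume ((⋂ n, K m D n) + (⋂ n, K m D n) + (⋂ n, K m D n) + (⋂ n, K m D n))
        ≤ (ENNReal.ofReal ((m : ℝ)⁻¹) * ((D + D + D + D).card : ENNReal)) ^ n * 4 := by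
      intro n
      refine le_trans (MeasureTheory.measure_mono ?_) (K_volume m D hm n)
      have := Set.iInter_subset (K m D) n
      exact Set.add_subset_add (Set.add_subset_add (Set.add_subset_add this this) this) this
    have hlt : ENNReal.ofReal ((m : ℝ)⁻¹) * ((D + D + D + D).card : ENNReal) < 1 := by
      have hmr : (0 : ℝ) < m := by exact_mod_cast hm
      rw [← ENNReal.ofReal_natCast, ← ENNReal.ofReal_mul (by positivity), ← ENNReal.ofReal_one]
      apply (ENNReal.ofReal_lt_ofReal_iff (by norm_num)).2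
      rw [inv_mul_lt_iff₀ hmr, mul_one]
      exact_mod_cast hcard
    have hlim : Filter.Tendsto (fun n : ℕ => (ENNReal.ofReal ((m : ℝ)⁻¹) *
        ((D + D + D + D).card : ENNReal)) ^ n * 4) Filter.atTop (nhds (0 * 4)) :=
      ENNReal.Tendsto.mul_const (ENNReal.tendsto_pow_atTop_nhds_zero_of_lt_one hlt) (Or.inr (by norm_num))
    rw [zero_mul] at hlim
    exact le_antisymm (ge_of_tendsto' hlim hle) bot_le

/-- Final statement. -/
theorem main : ∃ A : Set ℝ, IsCompact A ∧ A - A ∈ nhds (0 : ℝ) ∧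
    MeasureTheory.volume (A + A + A + A) = 0 := by
  obtain ⟨A0, hc, hd, hsub, hv⟩ := exists_A0
  let J : Set ℝ := ((↑) : ℕ → ℝ) '' (Set.Iic 2)
  have hJ : J.Finite := (Set.finite_Iic 2).image _
  refine ⟨A0 + J, hc.add hJ.isCompact, ?_, ?_⟩
  · refine Filter.mem_of_superset (Ioo_mem_nhds (a := -1) (b := 1) (by norm_num) (by norm_num)) ?_
    intro y hy
    obtain ⟨a, ha, a', ha', z, hz⟩ := hd y
    have h1 := hsub ha
    have h2 := hsub ha'
    have hz1 : (z : ℝ) < 3 := by rw [← hz]; linarith [hy.2, h1.1, h2.2]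
    have hz2 : (-3 : ℝ) < z := by rw [← hz]; linarith [hy.1, h1.2, h2.1]
    have hz1' : z < 3 := by exact_mod_cast hz1
    have hz2' : -3 < z := by exact_mod_cast hz2
    rcases le_total 0 z with h0 | h0
    · refine Set.mem_sub.2 ⟨a + ((z.toNat : ℕ) : ℝ), Set.add_mem_add ha ⟨z.toNat, ?_, rfl⟩,
        a' + ((0 : ℕ) : ℝ), Set.add_mem_add ha' ⟨0, ?_, rfl⟩, ?_⟩
      · rw [Set.mem_Iic]; omega
      · rw [Set.mem_Iic]; omega
      · have : ((z.toNat : ℕ) : ℝ) = (z : ℝ) := by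
          exact_mod_cast congrArg (fun t : ℤ => (t : ℝ)) (Int.toNat_of_nonneg h0)
        rw [this, ← hz]; push_cast; ring
    · refine Set.mem_sub.2 ⟨a + ((0 : ℕ) : ℝ), Set.add_mem_add ha ⟨0, ?_, rfl⟩,
        a' + (((-z).toNat : ℕ) : ℝ), Set.add_mem_add ha' ⟨(-z).toNat, ?_, rfl⟩, ?_⟩
      · rw [Set.mem_Iic]; omega
      · rw [Set.mem_Iic]; omega
      · have : (((-z).toNat : ℕ) : ℝ) = ((-z : ℤ) : ℝ) := by
          exact_mod_cast congrArg (fun t : ℤ => (t : ℝ)) (Int.toNat_of_nonneg (by omega : 0 ≤ -z))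
        rw [this]; push_cast; rw [← hz]; ring
  · have hsub2 : (A0 + J) + (A0 + J) + (A0 + J) + (A0 + J) ⊆
        ⋃ n : ℕ, ((n : ℝ) +ᵥ (A0 + A0 + A0 + A0)) := by
      intro x hx
      obtain ⟨x3, hx3, d, hd, rfl⟩ := Set.mem_add.1 hx
      obtain ⟨x2, hx2, c, hc, rfl⟩ := Set.mem_add.1 hx3
      obtain ⟨a, ha, b, hb, rfl⟩ := Set.mem_add.1 hx2
      obtain ⟨a1, ha1, _, ⟨i, _, rfl⟩, rfl⟩ := Set.mem_add.1 ha
      obtain ⟨b1, hb1, _, ⟨j, _, rfl⟩, rfl⟩ := Set.mem_add.1 hb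
      obtain ⟨c1, hc1, _, ⟨k, _, rfl⟩, rfl⟩ := Set.mem_add.1 hc
      obtain ⟨d1, hd1, _, ⟨l, _, rfl⟩, rfl⟩ := Set.mem_add.1 hd
      rw [Set.mem_iUnion]
      refine ⟨i + j + k + l, Set.mem_vadd_set.2 ⟨a1 + b1 + c1 + d1, ?_, ?_⟩⟩
      · exact Set.add_mem_add (Set.add_mem_add (Set.add_mem_add ha1 hb1) hc1) hd1
      · simp only [vadd_eq_add]; push_cast; ring
    refine MeasureTheory.measure_mono_null hsub2 (MeasureTheory.measure_iUnion_null (fun n => ?_))
    rw [MeasureTheory.measure_vadd]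
    exact hv

end Pool.Agent.R392.Haight
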