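import Pool.Agent.R537.LR.Stm

/-!
# Piece REP of project LR: approximate solutions of rank three give approximate gate values
-/

set_option autoImplicit false

namespace Pool.Agent.NPC.R537LR

open Pool.Agent.NPC Pool.Agent.NPC.ER

namespace REP392

theorem dA {θ x s a1 a2 t1 t2 κ1 κ2 : ℝ} (D : ℝ) (h0 : 0 ≤ θ) (h1 : θ ≤ 1 / 200)
    (hD : |D| ≤ θ) (e : D = x * s + a1 * t1 + a2 * t2) (hx : |x| ≤ 1 + θ)
    (hs : |1 - s| ≤ 7 * θ) (ha1 : |κ1 - a1| ≤ θ) (ha2 : |κ2 - a2| ≤ θ) (ht1 : |t1| ≤ 2)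
    (ht2 : |t2| ≤ 2) : |x + κ1 * t1 + κ2 * t2| ≤ 13 * θ := by
  have e1 : |x * (1 - s)| ≤ (1 + θ) * (7 * θ) := by
    rw [abs_mul]; exact mul_le_mul hx hs (abs_nonneg _) (by linarith)
  have e2 : |(κ1 - a1) * t1| ≤ θ * 2 := by
    rw [abs_mul]; exact mul_le_mul ha1 ht1 (abs_nonneg _) h0
  have e3 : |(κ2 - a2) * t2| ≤ θ * 2 := by
    rw [abs_mul]; exact mul_le_mul ha2 ht2 (abs_nonneg _) h0
  have e4 : x + κ1 * t1 + κ2 * t2 = D + x * (1 - s) + (κ1 - a1) * t1 + (κ2 - a2) * t2 := by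
    rw [e]; ring
  have e5 : (1 + θ) * (7 * θ) ≤ 8 * θ := by nlinarith
  rw [e4]
  rw [abs_le] at *
  constructor <;> linarith [e1.1, e1.2, e2.1, e2.2, e3.1, e3.2, hD.1, hD.2]

theorem dC {θ a0 a1 a2 t0 t1 t2 κ0 κ1 κ2 : ℝ} (D : ℝ) (h0 : 0 ≤ θ)
    (hD : |D| ≤ θ) (e : D = a0 * t0 + a1 * t1 + a2 * t2) (ha0 : |κ0 - a0| ≤ θ)
    (ha1 : |κ1 - a1| ≤ θ) (ha2 : |κ2 - a2| ≤ θ) (ht0 : |t0| ≤ 2) (ht1 : |t1| ≤ 2)
    (ht2 : |t2| ≤ 2) : |κ0 * t0 + κ1 * t1 + κ2 * t2| ≤ 7 * θ := by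
  have e1 : |(κ0 - a0) * t0| ≤ θ * 2 := by
    rw [abs_mul]; exact mul_le_mul ha0 ht0 (abs_nonneg _) h0
  have e2 : |(κ1 - a1) * t1| ≤ θ * 2 := by
    rw [abs_mul]; exact mul_le_mul ha1 ht1 (abs_nonneg _) h0
  have e3 : |(κ2 - a2) * t2| ≤ θ * 2 := by
    rw [abs_mul]; exact mul_le_mul ha2 ht2 (abs_nonneg _) h0
  have e4 : κ0 * t0 + κ1 * t1 + κ2 * t2 =
      D + (κ0 - a0) * t0 + (κ1 - a1) * t1 + (κ2 - a2) * t2 := by
    rw [e]; ring
  rw [e4]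
  rw [abs_le] at *
  constructor <;> linarith [e1.1, e1.2, e2.1, e2.2, e3.1, e3.2, hD.1, hD.2]

theorem dD {θ x t0 a1 a2 t1 t2 κ1 κ2 : ℝ} (D : ℝ) (h0 : 0 ≤ θ)
    (hD : |D| ≤ θ) (e : D = x * t0 + a1 * t1 + a2 * t2)
    (ha1 : |κ1 - a1| ≤ θ) (ha2 : |κ2 - a2| ≤ θ) (ht1 : |t1| ≤ 2)
    (ht2 : |t2| ≤ 2) : |x * t0 + κ1 * t1 + κ2 * t2| ≤ 5 * θ := by
  have e2 : |(κ1 - a1) * t1| ≤ θ * 2 := by
    rw [abs_mul]; exact mul_le_mul ha1 ht1 (abs_nonneg _) h0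
  have e3 : |(κ2 - a2) * t2| ≤ θ * 2 := by
    rw [abs_mul]; exact mul_le_mul ha2 ht2 (abs_nonneg _) h0
  have e4 : x * t0 + κ1 * t1 + κ2 * t2 = D + (κ1 - a1) * t1 + (κ2 - a2) * t2 := by
    rw [e]; ring
  rw [e4]
  rw [abs_le] at *
  constructor <;> linarith [e2.1, e2.2, e3.1, e3.2, hD.1, hD.2]

/-- The relation `κ ~ a` for a known coordinate. -/
theorem anchor_col {θ a0 a1 a2 t0 t1 t2 κ q : ℝ} (D : ℝ) (h0 : 0 ≤ θ)
    (hD : |q - D| ≤ θ) (e : D = a0 * t0 + a1 * t1 + a2 * t2) {κ0 κ1 κ2 : ℝ}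
    (ha0 : |κ0 - a0| ≤ θ) (ha1 : |κ1 - a1| ≤ θ) (ha2 : |κ2 - a2| ≤ θ) (ht0 : |t0| ≤ 2)
    (ht1 : |t1| ≤ 2) (ht2 : |t2| ≤ 2) (hκ : κ = κ0 * t0 + κ1 * t1 + κ2 * t2) :
    |q - κ| ≤ 7 * θ := by
  have e1 : |(κ0 - a0) * t0| ≤ θ * 2 := by
    rw [abs_mul]; exact mul_le_mul ha0 ht0 (abs_nonneg _) h0
  have e2 : |(κ1 - a1) * t1| ≤ θ * 2 := by
    rw [abs_mul]; exact mul_le_mul ha1 ht1 (abs_nonneg _) h0
  have e3 : |(κ2 - a2) * t2| ≤ θ * 2 := by
    rw [abs_mul]; exact mul_le_mul ha2 ht2 (abs_nonneg _) h0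
  have e4 : q - κ = (q - D) - (κ0 - a0) * t0 - (κ1 - a1) * t1 - (κ2 - a2) * t2 := by
    rw [e, hκ]; ring
  rw [e4]
  rw [abs_le] at *
  constructor <;> linarith [e1.1, e1.2, e2.1, e2.2, e3.1, e3.2, hD.1, hD.2]

/-- The vectors of the names. -/
structure Vec (n : ℕ) (G : List Gate) (y : ℕ) (θ : ℝ) (u : RName → Fin 3 → ℝ)
    (w : Col → Fin 3 → ℝ) : Prop where
  h0 : 0 ≤ θ
  h1 : θ ≤ 1 / 200
  hA : ∀ ρ ∈ rowsL n, ∀ j : Fin 3, ∀ q, (rowv ρ).getD j none = some q → |(q : ℝ) / 8 - u ρ j| ≤ θ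
  hA' : ∀ ρ ∈ rowsL n, ∀ j : Fin 3, (rowv ρ).getD j none = none → |u ρ j| ≤ 1 + θ
  hw : ∀ γ s, |w γ s| ≤ 2
  hu : ∀ ρ s, |u ρ s| ≤ 2
  hB : ∀ γ ∈ colsL1 n G y, 3 ≤ γ.1 → (∀ i < 3, (0, i) ∉ γ.2.2) → ∀ i : Fin 3, ∀ q,
    γ.2.1.getD i none = some q → |(q : ℝ) / 8 - w γ i| ≤ 7 * θ
  hC : ∀ γ ∈ colsL1 n G y, γ.1 = 3 → ∀ ρ ∈ γ.2.2, ρ.1 ≠ 0 → ρ ∈ rowsL n →
    |u ρ 0 * w γ 0 + u ρ 1 * w γ 1 + u ρ 2 * w γ 2| ≤ θ

theorem mem_row (n v t : ℕ) (hv : v < n) (h3 : 3 ≤ t) (h7 : t ≤ 7) : ((t, v) : RName) ∈ rowsL n := by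
  unfold rowsL
  rw [List.mem_append]
  right
  rw [List.mem_flatMap]
  refine ⟨v, List.mem_range.2 hv, ?_⟩
  interval_cases t <;> simp

theorem mem_row0 (n i : ℕ) (hi : i < 3) : ((0, i) : RName) ∈ rowsL n := by
  unfold rowsL
  rw [List.mem_append]
  left
  interval_cases i <;> simp

theorem mem_F (n : ℕ) : ((1, 0) : RName) ∈ rowsL n := by
  unfold rowsL
  rw [List.mem_append]
  left; simp

theorem mem_F2 (n : ℕ) : ((2, 0) : RName) ∈ rowsL n := by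
  unfold rowsL
  rw [List.mem_append]
  left; simp

theorem mem_colV (n : ℕ) (G : List Gate) (y v : ℕ) (hv : v < n) (γ : Col) (h : γ ∈ colV v) :
    γ ∈ colsL1 n G y := by
  unfold colsL1 colsL
  simp only [List.mem_append, List.mem_flatMap, List.mem_range]
  exact Or.inl (Or.inr (Or.inl ⟨v, hv, h⟩))

theorem mem_colG (n : ℕ) (G : List Gate) (y : ℕ) (g : Gate) (h : g ∈ G) :
    colG g ∈ colsL1 n G y := by
  unfold colsL1 colsL
  simp only [List.mem_append, List.mem_map]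
  exact Or.inl (Or.inr (Or.inr ⟨g, h, rfl⟩))

section

variable {n : ℕ} {G : List Gate} {y : ℕ} {θ : ℝ} {u : RName → Fin 3 → ℝ} {w : Col → Fin 3 → ℝ}

theorem row3 (V : Vec n G y θ u w) (v : ℕ) (hv : v < n) :
    |u (3, v) 0| ≤ 1 + θ ∧ |1 - u (3, v) 1| ≤ θ ∧ |0 - u (3, v) 2| ≤ θ := by
  have hm := mem_row n v 3 hv (by norm_num) (by norm_num)
  have h0 := V.hA' _ hm 0 (by simp [rowv])
  have h1 := V.hA _ hm 1 8 (by simp [rowv])
  have h2 := V.hA _ hm 2 0 (by simp [rowv])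
  norm_num at h1 h2
  refine ⟨h0, h1, ?_⟩
  rw [zero_sub, abs_neg]; exact h2

theorem row4 (V : Vec n G y θ u w) (v : ℕ) (hv : v < n) :
    |u (4, v) 0| ≤ 1 + θ ∧ |0 - u (4, v) 1| ≤ θ ∧ |1 - u (4, v) 2| ≤ θ := by
  have hm := mem_row n v 4 hv (by norm_num) (by norm_num)
  have h0 := V.hA' _ hm 0 (by simp [rowv])
  have h1 := V.hA _ hm 1 0 (by simp [rowv])
  have h2 := V.hA _ hm 2 8 (by simp [rowv])
  norm_num at h1 h2
  refine ⟨h0, ?_, h2⟩
  rw [zero_sub, abs_neg]; exact h1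

theorem row5 (V : Vec n G y θ u w) (v : ℕ) (hv : v < n) :
    |u (5, v) 0| ≤ 1 + θ ∧ |1 / 2 - u (5, v) 1| ≤ θ ∧ |1 / 2 - u (5, v) 2| ≤ θ := by
  have hm := mem_row n v 5 hv (by norm_num) (by norm_num)
  have h0 := V.hA' _ hm 0 (by simp [rowv])
  have h1 := V.hA _ hm 1 4 (by simp [rowv])
  have h2 := V.hA _ hm 2 4 (by simp [rowv])
  have e : ((4 : ℤ) : ℝ) / 8 = 1 / 2 := by norm_num
  rw [e] at h1 h2
  exact ⟨h0, h1, h2⟩

theorem row6 (V : Vec n G y θ u w) (v : ℕ) (hv : v < n) :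
    |0 - u (6, v) 0| ≤ θ ∧ |1 - u (6, v) 1| ≤ θ ∧ |u (6, v) 2| ≤ 1 + θ := by
  have hm := mem_row n v 6 hv (by norm_num) (by norm_num)
  have h0 := V.hA _ hm 0 0 (by simp [rowv])
  have h1 := V.hA _ hm 1 8 (by simp [rowv])
  have h2 := V.hA' _ hm 2 (by simp [rowv])
  norm_num at h0 h1
  refine ⟨?_, h1, h2⟩
  rw [zero_sub, abs_neg]; exact h0

theorem row7 (V : Vec n G y θ u w) (v : ℕ) (hv : v < n) :
    |1 - u (7, v) 0| ≤ θ ∧ |0 - u (7, v) 1| ≤ θ ∧ |u (7, v) 2| ≤ 1 + θ := by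
  have hm := mem_row n v 7 hv (by norm_num) (by norm_num)
  have h0 := V.hA _ hm 0 8 (by simp [rowv])
  have h1 := V.hA _ hm 1 0 (by simp [rowv])
  have h2 := V.hA' _ hm 2 (by simp [rowv])
  norm_num at h0 h1
  refine ⟨h0, ?_, h2⟩
  rw [zero_sub, abs_neg]; exact h1

theorem rowF (V : Vec n G y θ u w) :
    |1 - u (1, 0) 0| ≤ θ ∧ |1 - u (1, 0) 1| ≤ θ ∧ |0 - u (1, 0) 2| ≤ θ := by
  have hm := mem_F n
  have h0 := V.hA _ hm 0 8 (by simp [rowv])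
  have h1 := V.hA _ hm 1 8 (by simp [rowv])
  have h2 := V.hA _ hm 2 0 (by simp [rowv])
  norm_num at h0 h1 h2
  refine ⟨h0, h1, ?_⟩
  rw [zero_sub, abs_neg]; exact h2

theorem rowF2 (V : Vec n G y θ u w) :
    |0 - u (2, 0) 0| ≤ θ ∧ |1 - u (2, 0) 1| ≤ θ ∧ |-1 - u (2, 0) 2| ≤ θ := by
  have hm := mem_F2 n
  have h0 := V.hA _ hm 0 0 (by simp [rowv])
  have h1 := V.hA _ hm 1 8 (by simp [rowv])
  have h2 := V.hA _ hm 2 (-8) (by simp [rowv])
  norm_num at h0 h1 h2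
  refine ⟨?_, h1, h2⟩
  rw [zero_sub, abs_neg]; exact h0

/-- A column of the type `(1, *, *)`. -/
theorem col1 (V : Vec n G y θ u w) (zs : List RName) (hz : ∀ i < 3, (0, i) ∉ zs)
    (hm : ((3, [some 8, none, none], zs) : Col) ∈ colsL1 n G y) :
    |1 - w (3, [some 8, none, none], zs) 0| ≤ 7 * θ := by
  have h := V.hB _ hm (le_refl _) hz 0 8 (by simp)
  norm_num at h
  exact h

/-- A column of the type `(*, *, 1)`. -/
theorem col2 (V : Vec n G y θ u w) (zs : List RName) (hz : ∀ i < 3, (0, i) ∉ zs)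
    (hm : ((3, [none, none, some 8], zs) : Col) ∈ colsL1 n G y) :
    |1 - w (3, [none, none, some 8], zs) 2| ≤ 7 * θ := by
  have h := V.hB _ hm (le_refl _) hz 2 8 (by simp)
  norm_num at h
  exact h

/-- The rows of a variable have nearly the same value. -/
theorem ties (V : Vec n G y θ u w) (v : ℕ) (hv : v < n) :
    |u (4, v) 0 - u (3, v) 0| ≤ 33 * θ ∧ |u (5, v) 0 - u (3, v) 0| ≤ 30 * θ ∧
    |u (6, v) 2 - u (3, v) 0| ≤ 26 * θ ∧ |-u (7, v) 2 - u (3, v) 0| ≤ 59 * θ := by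
  obtain ⟨r30, r31, r32⟩ := row3 V v hv
  obtain ⟨r40, r41, r42⟩ := row4 V v hv
  obtain ⟨r50, r51, r52⟩ := row5 V v hv
  obtain ⟨r60, r61, r62⟩ := row6 V v hv
  obtain ⟨r70, r71, r72⟩ := row7 V v hv
  obtain ⟨f0, f1, f2⟩ := rowF V
  obtain ⟨g0, g1, g2⟩ := rowF2 V
  have m3 := mem_row n v 3 hv (by norm_num) (by norm_num)
  have m4 := mem_row n v 4 hv (by norm_num) (by norm_num)
  have m5 := mem_row n v 5 hv (by norm_num) (by norm_num)
  have m6 := mem_row n v 6 hv (by norm_num) (by norm_num)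
  have m7 := mem_row n v 7 hv (by norm_num) (by norm_num)
  -- first column
  set T1 : Col := (3, [some 8, none, none], [(2, 0), (3, v), (4, v), (5, v)]) with hT1
  have c1 : T1 ∈ colsL1 n G y := mem_colV n G y v hv _ (by simp [colV, hT1])
  have z1 : ∀ i < 3, (0, i) ∉ T1.2.2 := by intro i _; simp [hT1]
  have s1 := col1 V _ z1 c1
  have d12 := dC _ V.h0 (V.hC T1 c1 rfl (2, 0) (by simp [hT1]) (by norm_num) (mem_F2 n)) rfl g0 g1 g2
    (V.hw T1 0) (V.hw T1 1) (V.hw T1 2)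
  have d13 := dA _ V.h0 V.h1 (V.hC T1 c1 rfl (3, v) (by simp [hT1]) (by norm_num) m3) rfl r30 s1 r31
    r32 (V.hw T1 1) (V.hw T1 2)
  have d14 := dA _ V.h0 V.h1 (V.hC T1 c1 rfl (4, v) (by simp [hT1]) (by norm_num) m4) rfl r40 s1 r41
    r42 (V.hw T1 1) (V.hw T1 2)
  have d15 := dA _ V.h0 V.h1 (V.hC T1 c1 rfl (5, v) (by simp [hT1]) (by norm_num) m5) rfl r50 s1 r51
    r52 (V.hw T1 1) (V.hw T1 2)
  -- second column
  set T2 : Col := (3, [none, none, some 8], [(1, 0), (6, v), (7, v)]) with hT2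
  have c2 : T2 ∈ colsL1 n G y := mem_colV n G y v hv _ (by simp [colV, hT2])
  have z2 : ∀ i < 3, (0, i) ∉ T2.2.2 := by intro i _; simp [hT2]
  have s2 := col2 V _ z2 c2
  have d21 := dC _ V.h0 (V.hC T2 c2 rfl (1, 0) (by simp [hT2]) (by norm_num) (mem_F n)) rfl f0 f1 f2
    (V.hw T2 0) (V.hw T2 1) (V.hw T2 2)
  have d26 := dA _ V.h0 V.h1 (V.hC T2 c2 rfl (6, v) (by simp [hT2]) (by norm_num) m6)
    (show _ = u (6, v) 2 * w T2 2 + u (6, v) 0 * w T2 0 + u (6, v) 1 * w T2 1 by ring) r62 s2 r60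
    r61 (V.hw T2 0) (V.hw T2 1)
  have d27 := dA _ V.h0 V.h1 (V.hC T2 c2 rfl (7, v) (by simp [hT2]) (by norm_num) m7)
    (show _ = u (7, v) 2 * w T2 2 + u (7, v) 0 * w T2 0 + u (7, v) 1 * w T2 1 by ring) r72 s2 r70
    r71 (V.hw T2 0) (V.hw T2 1)
  -- third column
  set T3 : Col := (3, [some 8, none, some 8], [(3, v), (6, v)]) with hT3
  have c3 : T3 ∈ colsL1 n G y := mem_colV n G y v hv _ (by simp [colV, hT3])
  have z3 : ∀ i < 3, (0, i) ∉ T3.2.2 := by intro i _; simp [hT3]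
  have s3 : |1 - w T3 0| ≤ 7 * θ := by
    have h := V.hB _ c3 (le_refl _) z3 0 8 (by simp [hT3])
    norm_num at h
    exact h
  have s3' : |1 - w T3 2| ≤ 7 * θ := by
    have h := V.hB _ c3 (le_refl _) z3 2 8 (by simp [hT3])
    norm_num at h
    exact h
  have d33 := dA _ V.h0 V.h1 (V.hC T3 c3 rfl (3, v) (by simp [hT3]) (by norm_num) m3) rfl r30 s3 r31
    r32 (V.hw T3 1) (V.hw T3 2)
  have d36 := dA _ V.h0 V.h1 (V.hC T3 c3 rfl (6, v) (by simp [hT3]) (by norm_num) m6)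
    (show _ = u (6, v) 2 * w T3 2 + u (6, v) 0 * w T3 0 + u (6, v) 1 * w T3 1 by ring) r62 s3' r60
    r61 (V.hw T3 0) (V.hw T3 1)
  clear_value T1 T2 T3
  rw [abs_le] at d12 d13 d14 d15 d21 d26 d27 d33 d36
  have h0 := V.h0
  refine ⟨?_, ?_, ?_, ?_⟩ <;> rw [abs_le] <;> constructor <;> linarith

/-- The error of the gates. -/
theorem gates (V : Vec n G y θ u w) (g : Gate) (hg : g ∈ G) (hlt : GLt n g)
    (hz : g.1 = 1 → |g.2.2.2.2| ≤ 8) : GErr (fun v => u (3, v) 0) g ≤ 200 * θ := by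
  have h0 := V.h0
  have h1 := V.h1
  have hc := mem_colG n G y g hg
  obtain ⟨t, i, j, k, z⟩ := g
  obtain ⟨hi, hj, hk⟩ := hlt
  simp only at hi hj hk hz
  unfold colG at hc
  unfold GErr
  simp only at hc ⊢
  obtain ⟨ri0, ri1, ri2⟩ := row3 V i hi
  obtain ⟨rj0, rj1, rj2⟩ := row3 V j hj
  obtain ⟨rk0, rk1, rk2⟩ := row3 V k hk
  obtain ⟨ti4, ti5, ti6, ti7⟩ := ties V i hi
  obtain ⟨tj4, tj5, tj6, tj7⟩ := ties V j hj
  obtain ⟨tk4, tk5, tk6, tk7⟩ := ties V k hk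
  by_cases ht0 : t = 0
  · rw [if_pos ht0]; linarith
  rw [if_neg ht0] at hc ⊢
  by_cases ht1 : t = 1
  · rw [if_pos ht1] at hc ⊢
    set T : Col := (3, [some 8, some (-z), some 0], [(3, k)]) with hT
    have z1 : ∀ i < 3, (0, i) ∉ T.2.2 := by intro i _; simp [hT]
    have s0 : |1 - w T 0| ≤ 7 * θ := by
      have h := V.hB _ hc (le_refl _) z1 0 8 (by simp [hT])
      norm_num at h
      exact h
    have s1 : |-(z : ℝ) / 8 - w T 1| ≤ 7 * θ := by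
      have h := V.hB _ hc (le_refl _) z1 1 (-z) (by simp [hT])
      push_cast at h
      exact h
    have d := dA _ V.h0 V.h1 (V.hC T hc rfl (3, k) (by simp [hT]) (by norm_num)
      (mem_row n k 3 hk (by norm_num) (by norm_num))) rfl rk0 s0 rk1 rk2 (V.hw T 1) (V.hw T 2)
    clear_value T
    rw [abs_le] at d s1 ⊢
    constructor <;> linarith [d.1, d.2, s1.1, s1.2]
  rw [if_neg ht1] at hc ⊢
  by_cases ht2 : t = 2
  · rw [if_pos ht2] at hc ⊢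
    obtain ⟨a0, a1, a2⟩ := row4 V j hj
    obtain ⟨b0, b1, b2⟩ := row5 V k hk
    set T : Col := (3, [some 8, none, none], [(3, i), (4, j), (5, k)]) with hT
    have z1 : ∀ i < 3, (0, i) ∉ T.2.2 := by intro i _; simp [hT]
    have s := col1 V _ z1 hc
    have d1 := dA _ V.h0 V.h1 (V.hC T hc rfl (3, i) (by simp [hT]) (by norm_num)
      (mem_row n i 3 hi (by norm_num) (by norm_num))) rfl ri0 s ri1 ri2 (V.hw T 1) (V.hw T 2)
    have d2 := dA _ V.h0 V.h1 (V.hC T hc rfl (4, j) (by simp [hT]) (by norm_num)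
      (mem_row n j 4 hj (by norm_num) (by norm_num))) rfl a0 s a1 a2 (V.hw T 1) (V.hw T 2)
    have d3 := dA _ V.h0 V.h1 (V.hC T hc rfl (5, k) (by simp [hT]) (by norm_num)
      (mem_row n k 5 hk (by norm_num) (by norm_num))) rfl b0 s b1 b2 (V.hw T 1) (V.hw T 2)
    clear_value T
    rw [abs_le] at d1 d2 d3 tj4 tk5 ⊢
    constructor <;> linarith [d1.1, d1.2, d2.1, d2.2, d3.1, d3.2, tj4.1, tj4.2, tk5.1, tk5.2]
  rw [if_neg ht2] at hc ⊢
  obtain ⟨a0, a1, a2⟩ := row7 V i hi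
  obtain ⟨b0, b1, b2⟩ := row6 V k hk
  set T : Col := (3, [none, none, some 8], [(7, i), (3, j), (6, k)]) with hT
  have z1 : ∀ i < 3, (0, i) ∉ T.2.2 := by intro i _; simp [hT]
  have s := col2 V _ z1 hc
  have d1 := dA _ V.h0 V.h1 (V.hC T hc rfl (7, i) (by simp [hT]) (by norm_num)
      (mem_row n i 7 hi (by norm_num) (by norm_num)))
    (show _ = u (7, i) 2 * w T 2 + u (7, i) 0 * w T 0 + u (7, i) 1 * w T 1 by ring) a2 s a0
    a1 (V.hw T 0) (V.hw T 1)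
  have d2 := dD _ V.h0 (V.hC T hc rfl (3, j) (by simp [hT]) (by norm_num)
      (mem_row n j 3 hj (by norm_num) (by norm_num))) rfl rj1 rj2 (V.hw T 1) (V.hw T 2)
  have d3 := dA _ V.h0 V.h1 (V.hC T hc rfl (6, k) (by simp [hT]) (by norm_num)
      (mem_row n k 6 hk (by norm_num) (by norm_num)))
    (show _ = u (6, k) 2 * w T 2 + u (6, k) 0 * w T 0 + u (6, k) 1 * w T 1 by ring) b2 s b0
    b1 (V.hw T 0) (V.hw T 1)
  clear_value T
  -- `X_j (X_i - t0)` and `X_j t0 + t1`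
  have e1 : |u (3, j) 0 * (u (3, i) 0 - w T 0)| ≤ (1 + θ) * (72 * θ) := by
    rw [abs_mul]
    refine mul_le_mul rj0 ?_ (abs_nonneg _) (by linarith)
    rw [abs_le] at d1 ti7 ⊢
    constructor <;> linarith [d1.1, d1.2, ti7.1, ti7.2]
  have e2 : (1 + θ) * (72 * θ) ≤ 73 * θ := by nlinarith
  have e3 : u (3, i) 0 * u (3, j) 0 - u (3, k) 0 = u (3, j) 0 * (u (3, i) 0 - w T 0) +
      (u (3, j) 0 * w T 0 + 1 * w T 1 + 0 * w T 2) - (u (6, k) 2 + 0 * w T 0 + 1 * w T 1) +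
      (u (6, k) 2 - u (3, k) 0) := by ring
  rw [e3]
  rw [abs_le] at e1 d2 d3 tk6 ⊢
  constructor <;> linarith [e1.1, e1.2, d2.1, d2.2, d3.1, d3.2, tk6.1, tk6.2]

end

end REP392

open REP392 in
theorem t_REP : S_REP := by
  intro n G y P Q p l M hP hlt hz hy hQ hAp
  classical
  obtain ⟨hM0, hM, hac, hp2, hl2, hk, hun⟩ := hAp
  set θ : ℝ := (4 / 3) * M / Q with hθ
  have hQ0 : (0 : ℝ) < Q := lt_of_lt_of_le (by norm_num) hQ
  have h0 : 0 ≤ θ := by positivity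
  have hM12 : M ≤ 12 := by
    rw [hM, Fin.sum_univ_three]
    have hh : ∀ s, p P.ro s * l P.co s ≤ 4 := by
      intro s
      have := abs_mul (p P.ro s) (l P.co s)
      have h2 : |p P.ro s * l P.co s| ≤ 2 * 2 := by
        rw [this]; exact mul_le_mul (hp2 _ _) (hl2 _ _) (abs_nonneg _) (by norm_num)
      linarith [le_abs_self (p P.ro s * l P.co s)]
    linarith [hh 0, hh 1, hh 2]
  have h1 : θ ≤ 1 / 200 := by
    rw [hθ, div_le_iff₀ hQ0]
    norm_num at hQ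
    linarith
  -- names
  have hro := hP.ro
  have hco := hP.co
  have exf : ∃ f : RName → Fin (rowsL n).length, (∀ ρ ∈ rowsL n, (rowsL n).get (f ρ) = ρ) ∧
      f (3, y) = P.ro := by
    refine ⟨fun ρ => if ρ = (3, y) then P.ro else if h : ρ ∈ rowsL n then
      (List.get_of_mem h).choose else P.ro, fun ρ hρ => ?_, by simp⟩
    by_cases h : ρ = (3, y)
    · simp only [h, if_true]; exact hro
    · simp only [h, if_false, dif_pos hρ]
      exact (List.get_of_mem hρ).choose_spec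
  obtain ⟨f, hf, hfy⟩ := exf
  have exg : ∃ g : Col → Fin (colsL1 n G y).length, (∀ γ ∈ colsL1 n G y,
      (colsL1 n G y).get (g γ) = γ) := by
    refine ⟨fun γ => if h : γ ∈ colsL1 n G y then (List.get_of_mem h).choose else P.co,
      fun γ hγ => ?_⟩
    simp only [dif_pos hγ]
    exact (List.get_of_mem hγ).choose_spec
  obtain ⟨g, hg⟩ := exg
  have hcoT : ((colsL1 n G y).get P.co).1 = 4 := by rw [hco]
  -- the coordinates of the rows
  have hrow : ∀ r (j : Fin 3), ∑ s, p r s * l (P.ac j) s = p r j := by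
    intro r j
    simp [hac]
  have hacT : ∀ j : Fin 3, ((colsL1 n G y).get (P.ac j)).1 < 3 := by
    intro j; rw [hP.ac j]; exact j.2
  have hacne : ∀ j : Fin 3, P.ac j ≠ P.co := by
    intro j h
    have := hacT j
    rw [h, hcoT] at this
    omega
  have hEac : ∀ r (j : Fin 3), P.E r (P.ac j) =
      ((rowv ((rowsL n).get r)).getD j none).map fun q => (q : ℝ) / 8 := by
    intro r j
    rw [hP.E]
    congr 1
    unfold ent1 ent
    have hj := hP.ac j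
    have hj3 := hacT j
    rw [if_neg (by intro h; have := h.1; omega), if_pos hj3, hj]
  have hA0 : ∀ r (j : Fin 3) q, (rowv ((rowsL n).get r)).getD j none = some q →
      |(q : ℝ) / 8 - p r j| ≤ θ := by
    intro r j q hq
    have := hk r (P.ac j) ((q : ℝ) / 8) (fun h => hacne j h.2) (by rw [hEac, hq]; rfl)
    rwa [hrow] at this
  have hA0' : ∀ r (j : Fin 3), (rowv ((rowsL n).get r)).getD j none = none →
      |p r j| ≤ 1 + θ := by
    intro r j hq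
    have := hun r (P.ac j) (by rw [hEac, hq]; rfl) (Or.inr ((hP.tC _).2 (hacT j)))
    rwa [hrow] at this
  -- anchors rows
  have har : ∀ (i s : Fin 3), |(if i = s then (1 : ℝ) else 0) - p (P.ar i) s| ≤ θ := by
    intro i s
    have hi := hP.ar i
    by_cases his : i = s
    · have := hA0 (P.ar i) s 8 (by rw [hi]; subst his; fin_cases i <;> simp [rowv])
      rw [if_pos his]
      norm_num at this
      exact this
    · have := hA0 (P.ar i) s 0 (by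
        rw [hi]; fin_cases i <;> fin_cases s <;> simp [rowv] at his ⊢)
      rw [if_neg his]
      simpa using this
  -- the coordinates of the columns
  have hcolk : ∀ c (i : Fin 3) q, ¬ ((colsL1 n G y).get c).1 < 3 →
      ((0, (i : ℕ)) : RName) ∉ ((colsL1 n G y).get c).2.2 →
      ((colsL1 n G y).get c).2.1.getD i none = some q → |(q : ℝ) / 8 - l c i| ≤ 7 * θ := by
    intro c i q hc hnz hq
    have hi := hP.ar i
    have hE : P.E (P.ar i) c = some ((q : ℝ) / 8) := by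
      rw [hP.E, hi]
      unfold ent1 ent
      rw [if_neg (fun h => hnz h.2), if_neg hc, if_pos rfl, hq]
      rfl
    have hne : ¬ (P.ar i = P.ro ∧ c = P.co) := by
      intro h
      have h2 := h.1
      rw [← h2, hi] at hro
      simp at hro
    have := hk (P.ar i) c _ hne hE
    rw [Fin.sum_univ_three] at this
    refine anchor_col _ h0 this rfl (har i 0) (har i 1) (har i 2) (hl2 c 0) (hl2 c 1) (hl2 c 2) ?_
    fin_cases i <;> simp
  have V : Vec n G y θ (fun ρ => p (f ρ)) (fun γ => l (g γ)) := by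
    refine ⟨h0, h1, ?_, ?_, fun γ s => hl2 _ _, fun ρ s => hp2 _ _, ?_, ?_⟩
    · intro ρ hρ j q hq
      exact hA0 (f ρ) j q (by rw [hf ρ hρ]; exact hq)
    · intro ρ hρ j hq
      exact hA0' (f ρ) j (by rw [hf ρ hρ]; exact hq)
    · intro γ hγ h3 hnz i q hq
      refine hcolk (g γ) i q ?_ ?_ ?_
      · rw [hg γ hγ]; omega
      · rw [hg γ hγ]; exact hnz i i.2
      · rw [hg γ hγ]; exact hq
    · intro γ hγ h3 ρ hρz hρ0 hρ
      have hE : P.E (f ρ) (g γ) = some 0 := by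
        rw [hP.E, hf ρ hρ, hg γ hγ]
        unfold ent1 ent
        rw [if_neg (by intro h; have := h.1; omega), if_neg (by omega), if_neg hρ0, if_pos hρz]
        simp
      have hne : ¬ (f ρ = P.ro ∧ g γ = P.co) := by
        intro h
        have h2 := hg γ hγ
        rw [h.2, hco] at h2
        rw [← h2] at h3
        simp at h3
      have := hk (f ρ) (g γ) 0 hne hE
      rw [zero_sub, abs_neg, Fin.sum_univ_three] at this
      exact this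
  refine ⟨fun v => p (f (3, v)) 0, fun i hi => (row3 V i hi).1,
    fun g' hg' => gates V g' hg' (hlt g' hg') (hz g' hg'), ?_⟩
  -- the objective
  have hco3 : ¬ ((colsL1 n G y).get P.co).1 < 3 := by rw [hcoT]; omega
  have c0 := hcolk P.co 0 8 hco3 (by rw [hco]; simp) (by rw [hco]; simp)
  have c1 := hcolk P.co 1 0 hco3 (by rw [hco]; simp) (by rw [hco]; simp)
  have c2 := hcolk P.co 2 0 hco3 (by rw [hco]; simp) (by rw [hco]; simp)
  norm_num at c0 c1 c2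
  show M - 200 * θ ≤ p (f (3, y)) 0
  rw [hfy]
  rw [Fin.sum_univ_three] at hM
  have e0 : |p P.ro 0 * (1 - l P.co 0)| ≤ 2 * (7 * θ) := by
    rw [abs_mul]; exact mul_le_mul (hp2 _ _) c0 (abs_nonneg _) (by norm_num)
  have e1 : |p P.ro 1 * l P.co 1| ≤ 2 * (7 * θ) := by
    rw [abs_mul]; exact mul_le_mul (hp2 _ _) c1 (abs_nonneg _) (by norm_num)
  have e2 : |p P.ro 2 * l P.co 2| ≤ 2 * (7 * θ) := by
    rw [abs_mul]; exact mul_le_mul (hp2 _ _) c2 (abs_nonneg _) (by norm_num)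
  rw [abs_le] at e0 e1 e2
  rw [hM]
  linarith [e0.1, e0.2, e1.1, e1.2, e2.1, e2.2]

end Pool.Agent.NPC.R537LR
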